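import Pool.Agent.Helper68.KPR.St

set_option autoImplicit false

namespace Pool.Agent.Helper68.KPR

open Pool.Agent.Helper52.KP Pool.Agent.Helper5.KPA MvPolynomial

open scoped DirectSum

noncomputable def toRD (C : Cone) (r i : ℕ) : DG C r i →ₗ[ℂ] RD C r i :=
  LinearMap.codRestrict (RD C r i) ((DA C r).val.toLinearMap.comp (DG C r i).subtype)
    (fun x => x.2)

theorem hRTPx (hRSD : StRSD) : StRTP := by
  intro C hC r F hF a hNN k
  obtain ⟨hDA, hind, htop, h1, hmul⟩ := hRSD C hC r F hF
  have hint : DirectSum.IsInternal (DG C r) :=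
    DirectSum.isInternal_submodule_of_iSupIndep_of_iSup_eq_top hind htop
  let e : (⨁ i, DG C r i) ≃ₗ[ℂ] DA C r :=
    LinearEquiv.ofBijective (DirectSum.coeLinearMap (DG C r)) hint
  have he : ∀ i (x : DG C r i), e (DirectSum.lof ℂ ℕ (fun i => DG C r i) i x) = x := by
    intro i x
    exact DirectSum.coeLinearMap_lof (DG C r) i x
  let Θ : Dl (ac a) (RD C r) k →ₗ[ℂ] (DA C r →ₗ[ℂ] MvPolynomial (Fin C.m) ℂ) :=
    { toFun := fun φ => (DirectSum.toModule ℂ ℕ (MvPolynomial (Fin C.m) ℂ)
        (fun i => (φ.1 i).comp (toRD C r i))).comp e.symm.toLinearMap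
      map_add' := by
        intro φ ψ
        rw [← LinearMap.add_comp]
        congr 1
        apply DirectSum.linearMap_ext
        intro i
        ext x
        simp [DirectSum.toModule_lof]
      map_smul' := by
        intro c φ
        rw [RingHom.id_apply, ← LinearMap.smul_comp]
        congr 1
        apply DirectSum.linearMap_ext
        intro i
        ext x
        simp [DirectSum.toModule_lof] }
  have hΘ : ∀ (φ : Dl (ac a) (RD C r) k) (i : ℕ) (x : RD C r i) (x' : DA C r),
      (x' : MvPolynomial (Fin C.m) ℂ) = x → Θ φ x' = φ.1 i x := by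
    intro φ i x x' hx
    have hx' : x' ∈ DG C r i := by
      change (x' : MvPolynomial (Fin C.m) ℂ) ∈ RD C r i
      rw [hx]; exact x.2
    have h2 : e.symm x' = DirectSum.lof ℂ ℕ (fun i => DG C r i) i ⟨x', hx'⟩ := by
      rw [LinearEquiv.symm_apply_eq, he]
    change (DirectSum.toModule ℂ ℕ (MvPolynomial (Fin C.m) ℂ)
        (fun i => (φ.1 i).comp (toRD C r i))) (e.symm x') = _
    rw [h2, DirectSum.toModule_lof]
    change φ.1 i _ = _
    congr 1
    exact Subtype.ext hx
  refine ⟨Θ, hΘ, ?_⟩
  intro φ α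
  induction α using MvPolynomial.induction_on with
  | C c =>
    intro x y h
    have h2 : y = c • x := by
      apply Subtype.ext
      rw [h, aeval_C, Algebra.smul_def]
      rfl
    rw [h2, map_smul, ← C_mul']
  | add p q hp hq =>
    intro x y h
    have hap : ∀ p : MvPolynomial (Fin C.m) ℂ, aeval a p ∈ DA C r := by
      intro p
      have h3 : ((aeval (fun j => (⟨a j, (hDA _).2 (Submodule.mem_iSup_of_mem 1 (hNN.mem j))⟩ : DA C r)) p : DA C r) : MvPolynomial (Fin C.m) ℂ) = aeval a p := by
        have h2 : ((DA C r).val.comp (aeval (fun j => (⟨a j, (hDA _).2 (Submodule.mem_iSup_of_mem 1 (hNN.mem j))⟩ : DA C r)))) = aeval a := by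
          apply MvPolynomial.algHom_ext
          intro j
          simp
        rw [← h2]; rfl
      rw [← h3]; exact Subtype.property _
    have h4 : y = (⟨aeval a p, hap p⟩ : DA C r) * x + (⟨aeval a q, hap q⟩ : DA C r) * x := by
      apply Subtype.ext
      rw [h, map_add, add_mul]
      rfl
    rw [h4, map_add, add_mul]
    exact congrArg₂ (· + ·) (hp x _ rfl) (hq x _ rfl)
  | mul_X p l hp =>
    intro x y h
    have hap : ∀ p : MvPolynomial (Fin C.m) ℂ, aeval a p ∈ DA C r := by
      intro p
      have h3 : ((aeval (fun j => (⟨a j, (hDA _).2 (Submodule.mem_iSup_of_mem 1 (hNN.mem j))⟩ : DA C r)) p : DA C r) : MvPolynomial (Fin C.m) ℂ) = aeval a p := by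
        have h2 : ((DA C r).val.comp (aeval (fun j => (⟨a j, (hDA _).2 (Submodule.mem_iSup_of_mem 1 (hNN.mem j))⟩ : DA C r)))) = aeval a := by
          apply MvPolynomial.algHom_ext
          intro j
          simp
        rw [← h2]; rfl
      rw [← h3]; exact Subtype.property _
    have hX : ∀ z w : DA C r, (w : MvPolynomial (Fin C.m) ℂ) = a l * z → Θ φ w = X l * Θ φ z := by
      intro z
      have hz : z ∈ ⨆ i, DG C r i := by rw [htop]; trivial
      induction hz using Submodule.iSup_induction' with
      | mem i z hz =>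
        intro w hw
        have hal : (⟨a l, (hDA _).2 (Submodule.mem_iSup_of_mem 1 (hNN.mem l))⟩ : DA C r) ∈ DG C r 1 :=
          hNN.mem l
        have hw' : (w : MvPolynomial (Fin C.m) ℂ) ∈ RD C r (i + 1) := by
          have h9 := hmul 1 i _ _ hal hz
          rw [add_comm 1 i] at h9
          rw [hw]
          exact h9
        rw [hΘ φ i ⟨z, hz⟩ z rfl, hΘ φ (i + 1) ⟨w, hw'⟩ w rfl]
        exact φ.2.2 i l ⟨z, hz⟩ ⟨w, hw'⟩ (by
          change (w : MvPolynomial (Fin C.m) ℂ) = _
          rw [hw, ac, AlgHom.comp_apply, aeval_X]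
          rfl)
      | zero =>
        intro w hw
        have : w = 0 := by apply Subtype.ext; rw [hw]; simp
        rw [this, map_zero, mul_zero]
      | add z z' _ _ h5 h6 =>
        intro w hw
        have h4 : w = (⟨a l, (hDA _).2 (Submodule.mem_iSup_of_mem 1 (hNN.mem l))⟩ : DA C r) * z + (⟨a l, (hDA _).2 (Submodule.mem_iSup_of_mem 1 (hNN.mem l))⟩ : DA C r) * z' := by
          apply Subtype.ext
          rw [hw]
          change a l * ((z : MvPolynomial (Fin C.m) ℂ) + z') = a l * z + a l * z'
          rw [mul_add]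
        rw [h4, map_add, map_add, mul_add]
        exact congrArg₂ (· + ·) (h5 _ rfl) (h6 _ rfl)
    have h7 : (y : MvPolynomial (Fin C.m) ℂ) = a l * ((⟨aeval a p, hap p⟩ * x : DA C r) : MvPolynomial (Fin C.m) ℂ) := by
      rw [h, map_mul, aeval_X]
      change aeval a p * a l * _ = a l * (aeval a p * x)
      ring
    rw [hX _ _ h7, hp x _ rfl]
    ring

end Pool.Agent.Helper68.KPR
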