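import Pool.Agent.Helper68.KPR.Fin
import Pool.Agent.Helper68.KPR.RTPx
import Pool.Agent.Helper19.KPR.M_RDF
import Pool.Agent.Helper33.KPR.M_RSD
import Pool.Agent.Helper34.KPR.M_RDE
import Pool.Agent.Helper36.KPR.M_RHT
import Pool.Agent.Helper54.KPR.M_RBD
import Pool.Agent.Helper60.KPR.M_RYT
import Pool.Agent.Helper61.KPR.M_RVA
import Pool.Agent.Helper73.KPR.M_RDV
import Pool.Agent.Helper9.KPR.M_RFI
import Pool.Agent.Helper95.KPR.M_RNO

/-!
# PROJECT KP (MP_26be5b_ag), chapter A, part R: the codifferent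
-/

set_option autoImplicit false

namespace Pool.Agent.Helper68.KPR

open Pool.Agent Pool.Agent.Helper5.KPA

/-- PART R -/
theorem arf (hAGR : StAGR) (hAJC : StAJC) (hTRL : StTRL) (hCBD : StCBD) : StARF := by
  have hRSD : StRSD := Helper33.KPR.hRSD hAGR
  exact hARF (Helper61.KPR.hRVA Helper19.KPR.hRDF) Helper60.KPR.hRYT Helper36.KPR.hRHT
    Helper34.KPR.hRDE hRSD Helper95.KPR.hRNO (Helper9.KPR.hRFI hRSD hAGR)
    (Helper73.KPR.hRDV hAJC) (Helper54.KPR.hRBD hTRL hCBD) (hRTPx hRSD)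

end Pool.Agent.Helper68.KPR
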