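import Pool.Agent.Helper68.KPR.St

/-!
# PROJECT KP (MP_26be5b_ag), chapter A, part R: assembly
-/

set_option autoImplicit false

namespace Pool.Agent.Helper68.KPR

open Pool.Agent.Helper52.KP Pool.Agent.Helper5.KPA MvPolynomial

theorem mem_hp_nat {s : ℕ} {k : ℕ} {p : MvPolynomial (Fin s) ℂ} (h : p ∈ hp s (k : ℤ)) :
    p ∈ homogeneousSubmodule (Fin s) ℂ k := by
  unfold hp at h
  rw [if_pos (Int.natCast_nonneg k)] at h
  simpa using h

section

variable {m : ℕ} {D K L : Type} [CommRing D] [IsDomain D] [Algebra ℂ D]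
  [Algebra (MvPolynomial (Fin m) ℂ) D] [IsScalarTower ℂ (MvPolynomial (Fin m) ℂ) D]
  [FaithfulSMul (MvPolynomial (Fin m) ℂ) D] [IsIntegrallyClosed D]
  [Algebra.IsIntegral (MvPolynomial (Fin m) ℂ) D]
  [Field K] [Algebra (MvPolynomial (Fin m) ℂ) K]
  [IsFractionRing (MvPolynomial (Fin m) ℂ) K] [Field L] [Algebra D L] [IsFractionRing D L]
  [Algebra (MvPolynomial (Fin m) ℂ) L] [IsScalarTower (MvPolynomial (Fin m) ℂ) D L]
  [Algebra K L] [IsScalarTower (MvPolynomial (Fin m) ℂ) K L] [FiniteDimensional K L]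

theorem rab (hRVA : StRVA) (hRYT : StRYT) (hRHT : StRHT) (hRDE : StRDE)
    (G : ℕ → Submodule ℂ D) (hind : iSupIndep G) (htop : (⨆ k, G k) = ⊤) (h1 : 1 ∈ G 0)
    (hmul : ∀ i j x y, x ∈ G i → y ∈ G j → x * y ∈ G (i + j))
    (hX : ∀ l, algebraMap (MvPolynomial (Fin m) ℂ) D (X l) ∈ G 1)
    (T : D →ₗ[MvPolynomial (Fin m) ℂ] MvPolynomial (Fin m) ℂ) (y : L)
    (hy : ∀ b : D, Algebra.trace K L (y * algebraMap D L b) =
      algebraMap (MvPolynomial (Fin m) ℂ) K (T b))
    (S : D) (hS : S ∈ G m)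
    (hder : ∀ l : Fin m, ∃ δ : Derivation ℂ D D,
      δ (algebraMap (MvPolynomial (Fin m) ℂ) D (X l)) = S ∧
      ∀ j, j ≠ l → δ (algebraMap (MvPolynomial (Fin m) ℂ) D (X j)) = 0)
    (k : ℕ) (hdeg : ∀ i, ∀ b ∈ G i, T b ∈ hp m ((i : ℤ) + k - m)) :
    ∃ x ∈ G k, algebraMap D L x = y * algebraMap D L S := by
  by_cases hy0 : y = 0
  · exact ⟨0, zero_mem _, by rw [hy0, map_zero, zero_mul]⟩
  by_cases hS0 : S = 0
  · exact ⟨0, zero_mem _, by rw [hS0, map_zero, mul_zero]⟩
  have hSL : algebraMap D L S ≠ 0 := by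
    intro h
    exact hS0 ((IsFractionRing.injective D L) (by rw [h, map_zero]))
  have hinjK : Function.Injective (algebraMap (MvPolynomial (Fin m) ℂ) K) :=
    IsFractionRing.injective _ _
  -- integrality
  have hrange : y * algebraMap D L S ∈ Set.range (algebraMap D L) := by
    by_contra hcon
    obtain ⟨g, v, hg, hVa, hneg, hdif⟩ := hRVA (MvPolynomial (Fin m) ℂ) D K L _ hcon
    have e1 := hdif y hy0 (fun b => ⟨T b, hy b⟩)
    have e2 := hRDE m D L g v hg hVa S hS0 hder
    rw [hVa.mul _ _ hy0 hSL] at hneg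
    omega
  obtain ⟨x, hx⟩ := hrange
  obtain ⟨hex, huni, hint⟩ := hRYT (MvPolynomial (Fin m) ℂ) D K L
  refine ⟨x, ?_, hx⟩
  have hxtop : x ∈ ⨆ k, G k := by rw [htop]; trivial
  obtain ⟨f, hf, hfx⟩ := (Submodule.mem_iSup_iff_exists_finsupp G x).1 hxtop
  -- the components of degree different from `k` vanish
  have hcomp : ∀ j, j ≠ k → f j = 0 := by
    intro j hj
    have key : ∀ b : D, Algebra.trace K L (algebraMap D L (f j) * algebraMap D L b) = 0 := by
      intro b
      have hb : b ∈ ⨆ k, G k := by rw [htop]; trivial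
      refine Submodule.iSup_induction (motive := fun b => Algebra.trace K L
        (algebraMap D L (f j) * algebraMap D L b) = 0) G hb ?_ ?_ ?_
      · intro i b hb
        -- traces of the components
        have hp1 : ∀ j', ∃ p : MvPolynomial (Fin m) ℂ,
            Algebra.trace K L (algebraMap D L (f j' * b)) =
              algebraMap (MvPolynomial (Fin m) ℂ) K p := fun j' => hint _
        choose p hp using hp1
        have hph : ∀ j', p j' ∈ homogeneousSubmodule (Fin m) ℂ (j' + i) := by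
          intro j'
          have h3 := hRHT m D K L G hind htop h1 hmul hX (j' + i) (f j' * b) (p j')
            (hmul _ _ _ _ (hf j') hb) (hp j')
          exact mem_hp_nat h3
        have hsum : ∑ j' ∈ f.support, p j' = T (S * b) := by
          apply hinjK
          rw [map_sum, ← hy]
          have h4 : y * algebraMap D L (S * b) = ∑ j' ∈ f.support, algebraMap D L (f j' * b) := by
            rw [map_mul, ← mul_assoc, ← hx, ← hfx, Finsupp.sum, map_sum, Finset.sum_mul]
            exact Finset.sum_congr rfl fun j' _ => (map_mul _ _ _).symm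
          rw [h4, map_sum]
          exact Finset.sum_congr rfl fun j' _ => (hp j').symm
        have hT : T (S * b) ∈ homogeneousSubmodule (Fin m) ℂ (i + k) := by
          have h5 := hdeg (m + i) (S * b) (hmul _ _ _ _ hS hb)
          apply mem_hp_nat
          have h6 : (((m + i : ℕ) : ℤ) + k - m) = ((i + k : ℕ) : ℤ) := by push_cast; ring
          rwa [h6] at h5
        have hpj : p j = 0 ∨ j ∉ f.support := by
          by_cases hjs : j ∈ f.support
          · left
            have h7 := congrArg (homogeneousComponent (j + i)) hsum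
            rw [map_sum, homogeneousComponent_of_mem hT, if_neg (by omega),
              Finset.sum_eq_single j] at h7
            · rwa [homogeneousComponent_of_mem (hph j), if_pos rfl] at h7
            · intro j' _ hj'
              rw [homogeneousComponent_of_mem (hph j'), if_neg (by omega)]
            · intro h; exact absurd hjs h
          · right; exact hjs
        rw [← map_mul]
        rcases hpj with h8 | h8
        · rw [hp j, h8, map_zero]
        · rw [Finsupp.notMem_support_iff.1 h8, zero_mul, map_zero, map_zero]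
      · rw [map_zero, mul_zero, map_zero]
      · intro b b' hb hb'
        rw [map_add, mul_add, map_add, hb, hb', add_zero]
    have h9 := huni _ key
    exact (IsFractionRing.injective D L) (by rw [h9, map_zero])
  have hxk : x = f k := by
    rw [← hfx, Finsupp.sum]
    by_cases hks : k ∈ f.support
    · rw [Finset.sum_eq_single_of_mem k hks fun j _ hj => hcomp j hj]
    · rw [Finsupp.notMem_support_iff.1 hks]
      refine Finset.sum_eq_zero fun j hj => hcomp j ?_
      rintro rfl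
      exact hks hj
  rw [hxk]
  exact hf k

end

open nonZeroDivisors in
theorem rgen (hRVA : StRVA) (hRYT : StRYT) (hRHT : StRHT) (hRDE : StRDE)
    {m : ℕ} {D : Type} [CommRing D] [IsDomain D] [Algebra ℂ D] [IsIntegrallyClosed D]
    (a' : Fin m → D) (hinj : Function.Injective (aeval a' : MvPolynomial (Fin m) ℂ →ₐ[ℂ] D))
    (hfin : ((aeval a' : MvPolynomial (Fin m) ℂ →ₐ[ℂ] D) : MvPolynomial (Fin m) ℂ →+* D).Finite)
    (G : ℕ → Submodule ℂ D) (hind : iSupIndep G) (htop : (⨆ k, G k) = ⊤) (h1 : 1 ∈ G 0)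
    (hmul : ∀ i j x y, x ∈ G i → y ∈ G j → x * y ∈ G (i + j))
    (hX : ∀ l, a' l ∈ G 1)
    {V : Type} [AddCommGroup V] [Module ℂ V] (Θ : V →ₗ[ℂ] (D →ₗ[ℂ] MvPolynomial (Fin m) ℂ))
    (hΘ : ∀ φ α x, Θ φ (aeval a' α * x) = α * Θ φ x) (hΘinj : ∀ φ, (∀ x, Θ φ x = 0) → φ = 0)
    (k : ℕ) (hdeg : ∀ φ i, ∀ b ∈ G i, Θ φ b ∈ hp m ((i : ℤ) + k - m))
    {ι : Type} (S : ι → D) (hS : ∀ i, S i ∈ G m)
    (hder : ∀ i (l : Fin m), ∃ δ : Derivation ℂ D D, δ (a' l) = S i ∧ ∀ j, j ≠ l → δ (a' j) = 0) :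
    ∃ Ξ : ι → (V →ₗ[ℂ] D), (∀ i φ, Ξ i φ ∈ G k) ∧ (∀ i j φ, Ξ i φ * S j = Ξ j φ * S i) ∧
      ∀ i, S i ≠ 0 → Function.Injective (Ξ i) := by
  -- instances
  let instA : Algebra (MvPolynomial (Fin m) ℂ) D :=
    ((aeval a' : MvPolynomial (Fin m) ℂ →ₐ[ℂ] D) : MvPolynomial (Fin m) ℂ →+* D).toAlgebra
  have halg : ∀ α : MvPolynomial (Fin m) ℂ,
      algebraMap (MvPolynomial (Fin m) ℂ) D α = aeval a' α := fun α => rfl
  have hst : IsScalarTower ℂ (MvPolynomial (Fin m) ℂ) D := by
    refine IsScalarTower.of_algebraMap_eq fun c => ?_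
    rw [halg, MvPolynomial.algebraMap_eq, aeval_C]
  have : Module.Finite (MvPolynomial (Fin m) ℂ) D := hfin
  have : Algebra.IsIntegral (MvPolynomial (Fin m) ℂ) D := Algebra.IsIntegral.of_finite _ _
  have hfaith : FaithfulSMul (MvPolynomial (Fin m) ℂ) D :=
    (faithfulSMul_iff_algebraMap_injective _ _).2 hinj
  let instKL : Algebra (FractionRing (MvPolynomial (Fin m) ℂ)) (FractionRing D) :=
    FractionRing.liftAlgebra (MvPolynomial (Fin m) ℂ) (FractionRing D)
  have : IsScalarTower (MvPolynomial (Fin m) ℂ) (FractionRing (MvPolynomial (Fin m) ℂ))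
      (FractionRing D) :=
    FractionRing.isScalarTower_liftAlgebra (MvPolynomial (Fin m) ℂ) (FractionRing D)
  have hIC : IsIntegralClosure D (MvPolynomial (Fin m) ℂ) (FractionRing D) :=
    IsIntegralClosure.of_isIntegrallyClosed _ _ _
  have : Algebra.IsAlgebraic (FractionRing (MvPolynomial (Fin m) ℂ))
      (FractionRing D) := isAlgebraic_of_isFractionRing (MvPolynomial (Fin m) ℂ) D ..
  have : IsLocalization (Algebra.algebraMapSubmonoid D (MvPolynomial (Fin m) ℂ)⁰)
      (FractionRing D) :=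
    IsIntegralClosure.isLocalization _ (FractionRing (MvPolynomial (Fin m) ℂ)) _ _
  have : FiniteDimensional (FractionRing (MvPolynomial (Fin m) ℂ)) (FractionRing D) :=
    .of_isLocalization (MvPolynomial (Fin m) ℂ) D (MvPolynomial (Fin m) ℂ)⁰
  have hinjD : Function.Injective (algebraMap D (FractionRing D)) :=
    IsFractionRing.injective D (FractionRing D)
  obtain ⟨hex, huni, -⟩ := hRYT (MvPolynomial (Fin m) ℂ) D (FractionRing (MvPolynomial (Fin m) ℂ))
    (FractionRing D)
  -- `Θ φ` as a `P`-linear map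
  let TT : V → (D →ₗ[MvPolynomial (Fin m) ℂ] MvPolynomial (Fin m) ℂ) := fun φ =>
    { toFun := fun x => Θ φ x
      map_add' := fun x y => map_add _ _ _
      map_smul' := fun α x => by
        rw [Algebra.smul_def, halg, hΘ, RingHom.id_apply, smul_eq_mul] }
  have hTT : ∀ φ x, TT φ x = Θ φ x := fun φ x => rfl
  choose y hy using fun φ => hex (TT φ)
  have hyext : ∀ φ (z : FractionRing D), (∀ b : D,
      Algebra.trace (FractionRing (MvPolynomial (Fin m) ℂ)) (FractionRing D)
        (z * algebraMap D (FractionRing D) b) = algebraMap (MvPolynomial (Fin m) ℂ)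
          (FractionRing (MvPolynomial (Fin m) ℂ)) (Θ φ b)) → z = y φ := by
    intro φ z hz
    rw [← sub_eq_zero]
    refine huni _ fun b => ?_
    rw [sub_mul, map_sub, hz b, hy φ b, hTT, sub_self]
  have hyadd : ∀ φ ψ, y (φ + ψ) = y φ + y ψ := by
    intro φ ψ
    refine (hyext _ _ fun b => ?_).symm
    rw [add_mul, map_add, hy, hy, hTT, hTT, ← map_add]
    simp
  have hysmul : ∀ (c : ℂ) φ, y (c • φ) =
      algebraMap D (FractionRing D) (algebraMap ℂ D c) * y φ := by
    intro c φ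
    refine (hyext _ _ fun b => ?_).symm
    have e1 : algebraMap D (FractionRing D) (algebraMap ℂ D c) * y φ *
        algebraMap D (FractionRing D) b = y φ * algebraMap D (FractionRing D)
          (aeval a' (C c) * b) := by
      rw [aeval_C, map_mul]; ring
    rw [e1, hy, hTT, hΘ]
    simp [MvPolynomial.smul_eq_C_mul]
  have hy0 : ∀ φ, y φ = 0 → φ = 0 := by
    intro φ h
    refine hΘinj φ fun b => ?_
    have e2 := hy φ b
    rw [h, zero_mul, map_zero, hTT] at e2
    exact (IsFractionRing.injective (MvPolynomial (Fin m) ℂ)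
      (FractionRing (MvPolynomial (Fin m) ℂ))) (by rw [← e2, map_zero])
  -- the elements `x`
  have hx : ∀ (i : ι) (φ : V), ∃ x ∈ G k, algebraMap D (FractionRing D) x =
      y φ * algebraMap D (FractionRing D) (S i) := by
    intro i φ
    exact rab (K := FractionRing (MvPolynomial (Fin m) ℂ)) hRVA hRYT hRHT hRDE G hind htop h1 hmul
      (fun l => by rw [halg, aeval_X]; exact hX l) (TT φ) (y φ) (hy φ) (S i) (hS i)
      (fun l => by
        obtain ⟨δ, hδ1, hδ2⟩ := hder i l
        refine ⟨δ, by rw [halg, aeval_X]; exact hδ1, fun j hj => ?_⟩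
        rw [halg, aeval_X]; exact hδ2 j hj) k (fun i b hb => hdeg φ i b hb)
  choose x hxG hxe using hx
  refine ⟨fun i =>
    { toFun := fun φ => x i φ
      map_add' := fun φ ψ => ?_
      map_smul' := fun c φ => ?_ }, fun i φ => hxG i φ, fun i j φ => ?_, fun i hSi => ?_⟩
  · apply hinjD
    rw [map_add, hxe, hxe, hxe, hyadd, add_mul]
  · apply hinjD
    rw [RingHom.id_apply, Algebra.smul_def, map_mul, hxe, hxe, hysmul, mul_assoc]
  · apply hinjD
    change algebraMap D (FractionRing D) (x i φ * S j) = algebraMap D (FractionRing D) (x j φ * S i)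
    rw [map_mul, map_mul, hxe, hxe]; ring
  · rw [injective_iff_map_eq_zero]
    intro φ h0
    have e3 : x i φ = 0 := h0
    have e4 := hxe i φ
    rw [e3, map_zero] at e4
    have e5 : algebraMap D (FractionRing D) (S i) ≠ 0 := by
      intro h
      exact hSi (hinjD (by rw [h, map_zero]))
    exact hy0 φ ((mul_eq_zero.1 e4.symm).resolve_right e5)

theorem hARF (hRVA : StRVA) (hRYT : StRYT) (hRHT : StRHT) (hRDE : StRDE) (hRSD : StRSD)
    (hRNO : StRNO) (hRFI : StRFI) (hRDV : StRDV) (hRBD : StRBD) (hRTP : StRTP) : StARF := by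
  intro C hC r F hF a hNN k hk
  obtain ⟨hDA, hind, htop, h1, hmul⟩ := hRSD C hC r F hF
  have hle : ∀ j x, x ∈ RD C r j → x ∈ DA C r := fun j x hx =>
    Algebra.subset_adjoin (Set.mem_iUnion.2 ⟨j, hx⟩)
  let a' : Fin C.m → DA C r := fun j => ⟨a j, hle 1 _ (hNN.mem j)⟩
  have ha' : ∀ j, (a' j : MvPolynomial (Fin C.m) ℂ) = a j := fun j => rfl
  have hac : ∀ α : MvPolynomial (Fin C.m) ℂ,
      ((aeval a' α : DA C r) : MvPolynomial (Fin C.m) ℂ) = aeval a α := by
    intro α
    have h2 : ((DA C r).val.comp (aeval a')) = aeval a := by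
      apply MvPolynomial.algHom_ext
      intro j
      simp [ha']
    rw [← h2]
    rfl
  obtain ⟨hinj, hfin⟩ := hRFI C hC r F hF a hNN a' ha'
  have : IsIntegrallyClosed (DA C r) := hRNO C hC r F hF
  obtain ⟨Θ, hΘ1, hΘ2⟩ := hRTP C hC r F hF a hNN k
  obtain ⟨Sa, hSa, hSi⟩ := hRDV C hC r F hF a hNN
  let S : Fin C.nx → DA C r := fun i => ⟨Sa * C.X i ^ C.n, hle C.m _ (hSi i).1⟩
  obtain ⟨Ξ, hΞG, hΞrel, hΞinj⟩ := rgen hRVA hRYT hRHT hRDE a' hinj hfin (DG C r) hind htop h1
    hmul (fun l => hNN.mem l) Θ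
    (fun φ α x => hΘ2 φ α x _ (by rw [Subalgebra.coe_mul, hac]))
    (fun φ h => by
      apply Subtype.ext
      funext i
      apply LinearMap.ext
      intro x
      have h3 := hΘ1 φ i x ⟨x, hle i _ x.2⟩ rfl
      rw [h] at h3
      exact h3.symm)
    k
    (fun φ i b hb => by
      have h3 := hΘ1 φ i ⟨(b : MvPolynomial (Fin C.m) ℂ), hb⟩ b rfl
      rw [h3]
      exact φ.2.1 i _)
    S (fun i => (hSi i).1)
    (fun i l => by
      obtain ⟨δ, hδ1, hδ2⟩ := (hSi i).2 a' ha' l
      exact ⟨δ, Subtype.ext hδ1, hδ2⟩)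
  -- some `X i` is not zero
  obtain ⟨z₀, hz₀⟩ : ∃ z, ev C.Δ z ≠ 0 := by
    by_contra hcon
    push Not at hcon
    exact hC.Δ0 (MvPolynomial.funext fun z => (hcon z).trans (map_zero _).symm)
  obtain ⟨i₀, hi₀⟩ : ∃ i, C.X i ≠ 0 := by
    by_contra hcon
    push Not at hcon
    have h4 := hC.Xpos z₀ hz₀
    simp [Cone.sz, hcon] at h4
  have hS0 : S i₀ ≠ 0 := by
    intro h
    have h5 : Sa * C.X i₀ ^ C.n = 0 := congrArg Subtype.val h
    exact (mul_ne_zero hSa (pow_ne_zero _ hi₀)) h5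
  have hnk : C.n ≤ C.n * r * k := by
    have : 0 < r * k := Nat.mul_pos hF.hr hk
    calc C.n = C.n * 1 := (mul_one _).symm
      _ ≤ C.n * (r * k) := Nat.mul_le_mul_left _ this
      _ = C.n * r * k := (mul_assoc _ _ _).symm
  -- the regular functions
  have hs : ∀ φ, ∃ s ∈ C.R (C.n * r * k - C.n), ∀ i,
      ((Ξ i φ : DA C r) : MvPolynomial (Fin C.m) ℂ) = s * C.X i ^ C.n := by
    intro φ
    refine hRBD C hC (C.n * r * k) (fun i => ((Ξ i φ : DA C r) : MvPolynomial (Fin C.m) ℂ)) hnk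
      (fun i => hΞG i φ) (fun i j => ?_)
    have h6 : ((Ξ i φ : DA C r) : MvPolynomial (Fin C.m) ℂ) * (Sa * C.X j ^ C.n) =
        ((Ξ j φ : DA C r) : MvPolynomial (Fin C.m) ℂ) * (Sa * C.X i ^ C.n) :=
      congrArg Subtype.val (hΞrel i j φ)
    apply mul_left_cancel₀ hSa
    linear_combination h6
  have hfd : FiniteDimensional ℂ (C.R (C.n * r * k - C.n)) := hC.fd _
  let Λ : Dl (ac a) (RD C r) k →ₗ[ℂ] MvPolynomial (Fin C.m) ℂ :=
    (DA C r).val.toLinearMap ∘ₗ Ξ i₀
  have hΛinj : Function.Injective Λ := by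
    intro φ ψ h
    exact hΞinj i₀ hS0 (Subtype.ext h)
  have hrange : LinearMap.range Λ ≤ Submodule.map
      (LinearMap.mulLeft ℂ (C.X i₀ ^ C.n)) (C.R (C.n * r * k - C.n)) := by
    rintro _ ⟨φ, rfl⟩
    obtain ⟨s, hsR, hse⟩ := hs φ
    refine ⟨s, hsR, ?_⟩
    rw [LinearMap.mulLeft_apply, mul_comm, ← hse i₀]
    rfl
  calc Module.finrank ℂ (Dl (ac a) (RD C r) k) = Module.finrank ℂ (LinearMap.range Λ) :=
        (LinearMap.finrank_range_of_inj hΛinj).symm
    _ ≤ Module.finrank ℂ (Submodule.map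
          (LinearMap.mulLeft ℂ (C.X i₀ ^ C.n)) (C.R (C.n * r * k - C.n))) :=
        Submodule.finrank_mono hrange
    _ ≤ _ := Submodule.finrank_map_le _ _

end Pool.Agent.Helper68.KPR
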