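import Pool.Agent.Helper5.KPA.Itf2

/-!
# PROJECT KP (MP_26be5b_ag), chapter A, part R (codifferent)

TARGET: `StARF` of `Pool.Agent.Helper5.KPA.Itf2`. All modules are independent. For every statement
`StXXX` prove `theorem hXXX : StXXX` in `Pool/Agent/<You>/KPR/M_XXX.lean` (namespace
`Pool.Agent.<You>.KPR`); statements named in the docstring may be taken as hypotheses.

`P` is the polynomial ring `ℂ[a]`, `D = R^(d)` (or any normal domain integral over `P`), `K`, `L` their
fraction fields.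
-/

set_option autoImplicit false

namespace Pool.Agent.Helper68.KPR

open Pool.Agent.Helper52.KP Pool.Agent.Helper5.KPA MvPolynomial

/-- `v` is the normalized valuation of `L` (additive, on nonzero elements) at a prime ideal of height
one of `D` over the prime element `g` of `P` -/
structure Va (P D L : Type) [CommRing P] [CommRing D] [Field L] [Algebra P D] [Algebra D L]
    (g : P) (v : L → ℤ) : Prop where
  mul : ∀ x y : L, x ≠ 0 → y ≠ 0 → v (x * y) = v x + v y
  pos : ∀ b : D, b ≠ 0 → 0 ≤ v (algebraMap D L b)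
  unit : ∀ p : P, ¬ g ∣ p → v (algebraMap D L (algebraMap P D p)) = 0
  frac : ∀ x : L, x ≠ 0 → 0 ≤ v x → ∃ b h : D, h ≠ 0 ∧ v (algebraMap D L h) = 0 ∧
    x * algebraMap D L h = algebraMap D L b
  unif : ∃ x : L, x ≠ 0 ∧ v x = 1

/-- MODULE RDF (150 lines, STRONG; the different in residue characteristic zero).
PROOF. `Q ∩ R = (ϖ)`. Write `ϖ S = Q^e J`, `e ≥ 1`, `J` not contained in `Q` (coprime to `Q`).
Suppose `v(ϖ y) ≤ 0` (additive `v = v_Q`; in particular `y ≠ 0`). The fractional ideal `S ∩ (ϖ y)⁻¹ S` has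
`v_Q = - v(ϖ y)`, so there is `c ∈ S` with `z = c ϖ y ∈ S`, `z ∉ Q`. Choose `h ∈ J \ Q`. Then `h z ∈ J \ Q`. As `Q` is
maximal there is `b ∈ S` with `u = h z b ≡ 1` mod `Q^e`, and `u ∈ J`. `Tr(u) = ϖ Tr(y (h c b)) ∈ ϖ R`. But
`Algebra.trace_quotient_eq_of_isDedekindDomain`: `Tr(u)` mod `ϖ` is the trace of the class of `u` in
`S / ϖ S = S / Q^e × S / J` (`Ideal.quotientMulEquivQuotientProd`, compare the proof of
`not_dvd_differentIdeal_of_isCoprime_of_isSeparable` in Mathlib), where `u = (1, 0)`, so it is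
`dim (S / Q^e) ≥ 1` over `R / ϖ`, not zero in characteristic `0`. Contradiction.
(Or: `not_dvd_differentIdeal_of_intTrace_not_mem` with the ideals `Q^e`, `J`, and `coeIdeal_differentIdeal`.) -/
def StRDF : Prop := ∀ (R S K L : Type) [CommRing R] [IsDomain R] [IsDiscreteValuationRing R]
  [Algebra ℚ R] [CommRing S] [IsDomain S] [IsDedekindDomain S] [Field K] [Field L] [Algebra R S]
  [Algebra R K] [IsFractionRing R K] [Algebra S L] [IsFractionRing S L] [Algebra R L]
  [Algebra K L] [IsScalarTower R S L] [IsScalarTower R K L] [IsIntegralClosure S R L]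
  [Module.Finite R S] [Module.IsTorsionFree R S] [FiniteDimensional K L],
  ∀ ϖ : R, Irreducible ϖ → ∀ (Q : IsDedekindDomain.HeightOneSpectrum S) (y : L),
  (∀ s : S, ∃ ρ : R, Algebra.trace K L (y * algebraMap S L s) = algebraMap R K ρ) →
  Q.valuation L (algebraMap R L ϖ * y) < 1

/-- MODULE RVA (250 lines, STRONG). Input: StRDF.
PROOF. (Compare `rga_val` in `Pool/Agent/Helper41/KP/M_RGA.lean`, which can be copied for the choice of `g`.)
`x` is not integral over `P` (`D` is integrally closed and integral over `P`), but algebraic. So some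
coefficient of its minimal polynomial over `K` is not in `P`; in a reduced fraction let `g` be a prime
factor of the denominator; `R =` the localization of `P` at `(g)` inside `K`
(`Localization.subalgebra.ofField`), a discrete valuation ring (noetherian, local, maximal ideal generated
by `g`), and `x` is not integral over `R`. `S = integralClosure R L` is a Dedekind domain
(`integralClosure.isDedekindDomain`, characteristic `0`), finite over `R`, with fraction field `L`, and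
`x ∉ S`, so some `Q` has `Q.valuation L x > 1`
(`IsDedekindDomain.HeightOneSpectrum.mem_integers_of_valuation_le_one`). `v u = - log (Q.valuation L u)`.
(a) `σ ∈ S`: there is `t ∈ P`, not divisible by `g`, with `t σ` integral over `P`
(`IsIntegral.exists_multiple_integral_of_isLocalization`), so `t σ ∈ D`. (b) `D ⊆ S`, so `pos`; `p` not
divisible by `g` is a unit of `R`, so `unit`; `unif`: `valuation_exists_uniformizer`. (c) `frac`: `S` has
finitely many primes (the factors of `g S`), so it is a principal ideal domain and `x = σ / τ` with coprime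
`σ, τ`; `v x ≥ 0` implies `τ ∉ Q`. With (a) `σ = b / t`, `τ = b' / t'`: `x (b' t) = b t'`,
`v (b' t) = v (τ t' t) = 0`. (d) Last claim: for `σ ∈ S`, `t σ = b ∈ D`, `Tr (y σ) = Tr (y b) / t ∈ R`; StRDF with
`ϖ = g`. -/
def StRVA : Prop := ∀ (P D K L : Type) [CommRing P] [IsDomain P] [UniqueFactorizationMonoid P]
  [IsNoetherianRing P] [Algebra ℚ P] [CommRing D] [IsDomain D] [IsIntegrallyClosed D]
  [Algebra P D] [Algebra.IsIntegral P D] [FaithfulSMul P D] [Field K] [Algebra P K]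
  [IsFractionRing P K] [Field L] [Algebra D L] [IsFractionRing D L] [Algebra P L]
  [IsScalarTower P D L] [Algebra K L] [IsScalarTower P K L] [FiniteDimensional K L],
  ∀ x : L, x ∉ Set.range (algebraMap D L) → ∃ (g : P) (v : L → ℤ), Prime g ∧ Va P D L g v ∧
    v x < 0 ∧ ∀ y : L, y ≠ 0 →
      (∀ b : D, ∃ p : P, Algebra.trace K L (y * algebraMap D L b) = algebraMap P K p) →
      1 ≤ v y + v (algebraMap D L (algebraMap P D g))

/-- MODULE RYT (120 lines; trace duality).
PROOF. Every `x ∈ L` is `b / p`, `b ∈ D`, `0 ≠ p ∈ P` (`x = b' / c`; `c ∈ D` is integral over `P`, so it has a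
nonzero multiple in `P`: the constant term of a monic equation of minimal degree). (i) So `T` extends
to the `K`-linear form `b / p ↦ T b / p` (well defined: `T` is `P`-linear, `D` is a domain), and every
`K`-linear form on `L` is `Tr (y ·)` (`traceForm_nondegenerate`, characteristic `0` so separable, finite
dimension). (ii) `Tr (y x) = 0` for all `x ∈ L` by `K`-linearity; nondegenerate. (iii)
`Algebra.isIntegral_trace`, `P` integrally closed. -/
def StRYT : Prop := ∀ (P D K L : Type) [CommRing P] [IsDomain P] [IsIntegrallyClosed P]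
  [Algebra ℚ P] [CommRing D] [IsDomain D] [Algebra P D] [Algebra.IsIntegral P D]
  [FaithfulSMul P D] [Field K] [Algebra P K] [IsFractionRing P K] [Field L] [Algebra D L]
  [IsFractionRing D L] [Algebra P L] [IsScalarTower P D L] [Algebra K L] [IsScalarTower P K L]
  [FiniteDimensional K L],
  (∀ T : D →ₗ[P] P, ∃ y : L, ∀ b : D,
    Algebra.trace K L (y * algebraMap D L b) = algebraMap P K (T b)) ∧
  (∀ y : L, (∀ b : D, Algebra.trace K L (y * algebraMap D L b) = 0) → y = 0) ∧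
  ∀ b : D, ∃ p : P, Algebra.trace K L (algebraMap D L b) = algebraMap P K p

/-- MODULE RHT (120 lines; the trace is homogeneous).
PROOF. `σ : D ≃+* D` multiplies `G j` by `2^j` (`D = ⊕ G j`, a ring automorphism because `G` is multiplicative),
`τ : P ≃+* P`, `X_l ↦ 2 X_l`, `α ↦ α` for constants; `σ (algebraMap p) = algebraMap (τ p)` (check on constants and
the `X_l`). Extend to `K`, `L` (`IsFractionRing.ringEquivOfRingEquiv`). `Algebra.trace_eq_of_equiv_equiv`:
`Tr (σ b) = τ (Tr b)`; `σ b = 2^k b`. So `τ p = 2^k p`. On the homogeneous component `p_j` `τ` is `2^j`, so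
`p_j = 0` for `j ≠ k`. -/
def StRHT : Prop := ∀ (m : ℕ) (D K L : Type) [CommRing D] [IsDomain D] [Algebra ℂ D]
  [Algebra (MvPolynomial (Fin m) ℂ) D] [IsScalarTower ℂ (MvPolynomial (Fin m) ℂ) D]
  [FaithfulSMul (MvPolynomial (Fin m) ℂ) D] [Field K] [Algebra (MvPolynomial (Fin m) ℂ) K]
  [IsFractionRing (MvPolynomial (Fin m) ℂ) K] [Field L] [Algebra D L] [IsFractionRing D L]
  [Algebra (MvPolynomial (Fin m) ℂ) L] [IsScalarTower (MvPolynomial (Fin m) ℂ) D L]
  [Algebra K L] [IsScalarTower (MvPolynomial (Fin m) ℂ) K L] [FiniteDimensional K L]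
  (G : ℕ → Submodule ℂ D), iSupIndep G → (⨆ k, G k) = ⊤ → 1 ∈ G 0 →
  (∀ i j x y, x ∈ G i → y ∈ G j → x * y ∈ G (i + j)) →
  (∀ l, algebraMap (MvPolynomial (Fin m) ℂ) D (X l) ∈ G 1) →
  ∀ (k : ℕ) (b : D) (p : MvPolynomial (Fin m) ℂ), b ∈ G k →
  Algebra.trace K L (algebraMap D L b) = algebraMap (MvPolynomial (Fin m) ℂ) K p → p ∈ hp m k

/-- MODULE RDE (120 lines; derivations and ramification).
PROOF. `e = v g ≥ 0`. If `e ≤ 1` use `pos`. Let `e ≥ 1`. For some `l` `∂_l g` (`pderiv l g`) is not divisible by `g`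
(`g` is not constant, so some `∂_l g ≠ 0`, and its degree in `X_l` is smaller than that of `g`). `δ = δ_l`:
`δ (g) = (∂_l g) S` (chain rule; here and below polynomials are identified with their images in `D`).
`unif`: `ζ`, `v ζ = 1`; `frac`: `ζ h₁ = f₁`, and `ε = g / ζ^e` has `v ε = 0`, so `ε h₂ = f₂`;
`v h₁ = v h₂ = 0`, `v f₁ = 1`, and `g H = f₁^e f₂`, `H = h₁^e h₂`, in `D`. Apply `δ` and multiply by `H`:
`(∂_l g) S H² + f₁^e f₂ δ(H) = H (e f₁^(e-1) δ(f₁) f₂ + f₁^e δ(f₂))`, so `(∂_l g) S H² = f₁^(e-1) w` with `w ∈ D`,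
`w ≠ 0`. Apply `v`: `v S = (e - 1) + v w ≥ e - 1`. -/
def StRDE : Prop := ∀ (m : ℕ) (D L : Type) [CommRing D] [IsDomain D] [Algebra ℂ D]
  [Algebra (MvPolynomial (Fin m) ℂ) D] [IsScalarTower ℂ (MvPolynomial (Fin m) ℂ) D]
  [FaithfulSMul (MvPolynomial (Fin m) ℂ) D] [Field L] [Algebra D L] [IsFractionRing D L]
  (g : MvPolynomial (Fin m) ℂ) (v : L → ℤ), Prime g → Va (MvPolynomial (Fin m) ℂ) D L g v →
  ∀ S : D, S ≠ 0 →
  (∀ l : Fin m, ∃ δ : Derivation ℂ D D, δ (algebraMap (MvPolynomial (Fin m) ℂ) D (X l)) = S ∧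
    ∀ j, j ≠ l → δ (algebraMap (MvPolynomial (Fin m) ℂ) D (X j)) = 0) →
  v (algebraMap D L (algebraMap (MvPolynomial (Fin m) ℂ) D g)) ≤ v (algebraMap D L S) + 1

/-! ### The algebra `R^(d)` -/

/-- the algebra `R^(d)` -/
noncomputable def DA (C : Cone) (r : ℕ) : Subalgebra ℂ (MvPolynomial (Fin C.m) ℂ) :=
  Algebra.adjoin ℂ (⋃ k, (RD C r k : Set (MvPolynomial (Fin C.m) ℂ)))

/-- its grading -/
noncomputable def DG (C : Cone) (r k : ℕ) : Submodule ℂ (DA C r) :=
  Submodule.comap (DA C r).val.toLinearMap (RD C r k)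

/-- MODULE RSD (100 lines, uses StAGR of Helper5/KPA/StN).
PROOF. `GrA (RD C r)` (StAGR): the span of `⋃ RD C r k` is closed under multiplication and contains `1`, so it is
`DA`. The second and third: `iSupIndep` and the supremum of the preimages under the injective map `DA → 𝒫`
(all `RD C r k` are in its range). -/
def StRSD : Prop := ∀ (C : Cone), Good C → ∀ r F, NF C r F →
  (∀ x, x ∈ DA C r ↔ x ∈ ⨆ k, RD C r k) ∧ iSupIndep (DG C r) ∧ (⨆ k, DG C r k) = ⊤ ∧
  1 ∈ DG C r 0 ∧ ∀ i j x y, x ∈ DG C r i → y ∈ DG C r j → x * y ∈ DG C r (i + j)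

/-- MODULE RNO (120 lines, uses StAGR, StRSD).
PROOF. `B = adjoin {C f X^l : f ∈ F k l} ⊆ 𝒫[X]` is integrally closed (`NF.normal`). `f ↦ C f` maps `D = DA C r` into
`B` (`F k 0 = RD C r k`), and if `C b ∈ B` then `b ∈ D`: the elements of `𝒫[X]` all of whose coefficients of
`X^0` are in `D` form... use: all elements `x` of `B` satisfy `x.coeff l ∈ ⨆ k, F k l` for all `l` (a subalgebra
containing the generators), `l = 0`. Let `u, v ∈ D`, `v ≠ 0`, `u / v` integral over `D`. Then `C u / C v` is integral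
over `B`, so there is `β ∈ B` with `β C v = C u` in `𝒫[X]`. Comparing degrees (`𝒫` a domain) `β = C b`, `b v = u`, and
`b ∈ D`. So `u / v ∈ D`. (`isIntegrallyClosed_iff` with the fraction field of `D`; `B → 𝒫[X]` is injective.) -/
def StRNO : Prop := ∀ (C : Cone), Good C → ∀ r F, NF C r F → IsIntegrallyClosed (DA C r)

/-- MODULE RFI (80 lines, uses StRSD, StAGR).
PROOF. Injective: `a` is algebraically independent, `aeval a = val ∘ aeval a'`. Finite: by `NN.fg` every element of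
`RD C r k` is in the `ℂ[a]`-module generated by bases of `RD C r 0, ..., RD C r N` (induction on `k`; `N = D` of
`NN.fg`); finitely many elements (`Good.fd`). -/
def StRFI : Prop := ∀ (C : Cone), Good C → ∀ r F, NF C r F →
  ∀ a : Fin C.m → MvPolynomial (Fin C.m) ℂ, NN (RD C r) a → ∀ a' : Fin C.m → DA C r,
  (∀ j, (a' j : MvPolynomial (Fin C.m) ℂ) = a j) →
  Function.Injective (aeval a' : MvPolynomial (Fin C.m) ℂ →ₐ[ℂ] DA C r) ∧
  ((aeval a' : MvPolynomial (Fin C.m) ℂ →ₐ[ℂ] DA C r) :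
    MvPolynomial (Fin C.m) ℂ →+* DA C r).Finite

/-- MODULE RDV (150 lines, uses StAJC of Helper5/KPA/StN, StRSD).
PROOF. `d = n r ≥ n`, `m = 2 n ≥ 2`. `Good.jac` with all degrees `d`: `jac a = S_a J`, `S_a ∈ R (m d - n)`, not zero
by StAJC (`NN.ai`), and `S_a X_i^n ∈ R (m d) = RD C r m` (`Good.XR`, `Good.mul`). For `f ∈ RD C r k` `Good.jac` with
`a` replaced by `f` at `l` (degrees `d` for `j ≠ l` and `d k` for `l`, sum `≥ d ≥ n`):
`jac (update a l f) = s J`, `s ∈ R (d (m - 1 + k) - n)`, so `s X_i^n ∈ RD C r (m - 1 + k)`. `jac (update a l f)` is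
additive in `f`, so for every `x ∈ DA C r` (StRSD) there is `δ x ∈ DA C r` with
`X_i^n jac (update a l x) = δ x J`, unique as `J ≠ 0`, linear in `x`, and
`jac (update a l (x y)) = x jac (update a l y) + y jac (update a l x)` (`pderiv` is a derivation, the determinant is
linear in the row `l`), so `δ` is a derivation. `δ (a_l) = S_a X_i^n` (`update a l (a l) = a`); for `j ≠ l` the
matrix has two equal rows. -/
def StRDV : Prop := ∀ (C : Cone), Good C → ∀ r F, NF C r F →
  ∀ a : Fin C.m → MvPolynomial (Fin C.m) ℂ, NN (RD C r) a →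
  ∃ Sa : MvPolynomial (Fin C.m) ℂ, Sa ≠ 0 ∧ ∀ i : Fin C.nx, Sa * C.X i ^ C.n ∈ RD C r C.m ∧
    ∀ a' : Fin C.m → DA C r, (∀ j, (a' j : MvPolynomial (Fin C.m) ℂ) = a j) →
    ∀ l : Fin C.m, ∃ δ : Derivation ℂ (DA C r) (DA C r),
      (δ (a' l) : MvPolynomial (Fin C.m) ℂ) = Sa * C.X i ^ C.n ∧ ∀ j, j ≠ l → δ (a' j) = 0

/-- MODULE RBD (120 lines, uses StTRL (Helper5/KPA/StT) and StCBD (Helper5/KPA/Itf2)).
PROOF. `U` is not empty (`Δ ≠ 0`), so some `X_(i₀) ≠ 0` (`Good.Xpos`). Put `N₀ = x_(i₀)`, `D₀ = X_(i₀)^n`. Let `z ∈ U`,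
`X_(i₀)(z) ≠ 0`. Some `i` has `|X_i(z)| ≥ sz(z) / nx > 0`, and `N₀(z) X_i(z)^n = x_i(z) D₀(z)`, so
`|N₀(z) / D₀(z)| = |x_i(z) / X_i(z)^n| ≤ B sz^e (nx / sz)^n = B' sz^(e-n)` (`Good.bdd`, `B` for all `x_i`). `sz` is bounded
on balls and `{Δ X_(i₀) = 0}` is a null set, so StTRL gives `D₀ ∣ N₀`, `N₀ = s D₀`. From `x_i X_(i₀)^n = x_(i₀) X_i^n`
we get `x_i = s X_i^n`. `|s| ≤ B' sz^(e-n)` on `U ∩ {X_(i₀) ≠ 0}`, by continuity on `U`. For `c ≠ 0`:
`c^n s(scl c z) X_(i₀)(z)^n = x(scl c z) = c^e s(z) X_(i₀)(z)^n`, so `s(scl c z) = c^(e-n) s(z)` where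
`X_(i₀)(z) ≠ 0`, hence for all `z` (polynomials), and for `c = 0` by continuity in `c`. StCBD. -/
def StRBD : Prop := ∀ (C : Cone), Good C → ∀ (e : ℕ) (x : Fin C.nx → MvPolynomial (Fin C.m) ℂ),
  C.n ≤ e → (∀ i, x i ∈ C.R e) → (∀ i j, x i * C.X j ^ C.n = x j * C.X i ^ C.n) →
  ∃ s ∈ C.R (e - C.n), ∀ i, x i = s * C.X i ^ C.n

/-- MODULE RTP (100 lines, uses StRSD, StAGR).
PROOF. `x ∈ DA C r` is a unique finite sum `∑ x_i`, `x_i ∈ RD C r i` (StRSD); `Θ φ x = ∑ φ_i x_i`. It is linear in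
`x` and in `φ`. For `y = a_l x`, `x ∈ RD C r i`: `Θ φ y = φ_(i+1) (a_l x) = X_l φ_i x` (definition of `Dl`, `ac a (X l)` is
the multiplication by `a l`); then for all `α` by induction (`MvPolynomial.induction_on`). -/
def StRTP : Prop := ∀ (C : Cone), Good C → ∀ r F, NF C r F →
  ∀ a : Fin C.m → MvPolynomial (Fin C.m) ℂ, NN (RD C r) a → ∀ k : ℕ,
  ∃ Θ : Dl (ac a) (RD C r) k →ₗ[ℂ] (DA C r →ₗ[ℂ] MvPolynomial (Fin C.m) ℂ),
    (∀ (φ : Dl (ac a) (RD C r) k) (i : ℕ) (x : RD C r i) (x' : DA C r),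
      (x' : MvPolynomial (Fin C.m) ℂ) = x → Θ φ x' = φ.1 i x) ∧
    ∀ (φ : Dl (ac a) (RD C r) k) (α : MvPolynomial (Fin C.m) ℂ) (x y : DA C r),
      (y : MvPolynomial (Fin C.m) ℂ) = aeval a α * (x : MvPolynomial (Fin C.m) ℂ) →
      Θ φ y = α * Θ φ x

end Pool.Agent.Helper68.KPR
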